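import Pool.Agent.helper6.KR.SpecD

/-! # Row kr:K3 (MP_3270f3_lc): the term model of a Henkin set -/

set_option autoImplicit false

namespace Pool.Agent.KR

theorem K3 (h1 : K1_stmt) : K3_stmt := by
  obtain ⟨_, _, ⟨_, hvar⟩, _, _, hinst, _, hpax, _, _⟩ := h1
  intro S hbot hpr himp hand hor hall hex
  have hax : ∀ A, PAx A → A ∈ S := fun A hA => hpr A ⟨1, LK.ax hA⟩
  have impS : ∀ (σ : ℕ → Tm) (A B : Fm), (Fm.bin .imp A B).subst σ ∈ S ↔ (A.subst σ ∈ S → B.subst σ ∈ S) :=
    fun σ A B => himp (A.subst σ) (B.subst σ)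
  have allS : ∀ (σ : ℕ → Tm) (A : Fm), (Fm.qu .all A).subst σ ∈ S ↔ ∀ t, A.subst (scons t σ) ∈ S := by
    intro σ A
    have e : (Fm.qu .all A).subst σ = Fm.all (A.subst (up σ)) := rfl
    rw [e, hall]
    simp only [hinst]
  have exS : ∀ (σ : ℕ → Tm) (A : Fm), (Fm.qu .ex A).subst σ ∈ S ↔ ∃ t, A.subst (scons t σ) ∈ S := by
    intro σ A
    have e : (Fm.qu .ex A).subst σ = Fm.ex (A.subst (up σ)) := rfl
    rw [e, hex]
    simp only [hinst]
  have haxS : ∀ A, BAx A → A.subst Tm.var ∈ S := fun A hA => by
    rw [hvar]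
    exact hax A (.basic hA)
  have hrefl : ∀ t, Fm.eq t t ∈ S := by
    intro t
    have h := haxS _ .refl
    rw [allS] at h
    exact h t
  have hsymm : ∀ t u, Fm.eq t u ∈ S → Fm.eq u t ∈ S := by
    intro t u htu
    have h := haxS _ .symm
    rw [allS] at h
    have h2 := h t
    rw [allS] at h2
    have h3 := h2 u
    rw [impS] at h3
    exact h3 htu
  have htrans : ∀ t u v, Fm.eq t u ∈ S → Fm.eq u v ∈ S → Fm.eq t v ∈ S := by
    intro t u v htu huv
    have h := haxS _ .trans
    rw [allS] at h
    have h2 := h t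
    rw [allS] at h2
    have h3 := h2 u
    rw [allS] at h3
    have h4 := h3 v
    rw [impS] at h4
    have h5 := h4 htu
    rw [impS] at h5
    exact h5 huv
  have hcS : ∀ t u, Fm.eq t u ∈ S → Fm.eq (.succ t) (.succ u) ∈ S := by
    intro t u htu
    have h := haxS _ .congS
    rw [allS] at h
    have h2 := h t
    rw [allS] at h2
    have h3 := h2 u
    rw [impS] at h3
    exact h3 htu
  have hcO : ∀ o t u v w, Fm.eq t u ∈ S → Fm.eq v w ∈ S → Fm.eq (.op o t v) (.op o u w) ∈ S := by
    intro o t u v w htu hvw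
    have h := haxS _ (.congOp o)
    rw [allS] at h
    have h2 := h t
    rw [allS] at h2
    have h3 := h2 u
    rw [allS] at h3
    have h4 := h3 v
    rw [allS] at h4
    have h5 := h4 w
    rw [impS] at h5
    have h6 := h5 htu
    rw [impS] at h6
    exact h6 hvw
  let st : Setoid Tm := ⟨fun t u => Fm.eq t u ∈ S, ⟨hrefl, fun {t u} h => hsymm t u h,
    fun {t u v} h h' => htrans t u v h h'⟩⟩
  let 𝔄 : AStr (Quotient st) :=
    { zero := Quotient.mk st .zero
      succ := Quotient.map Tm.succ (fun t u h => hcS t u h)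
      op := fun o => Quotient.map₂ (Tm.op o) (fun t u h v w h' => hcO o t u v w h h') }
  have hev : ∀ (t : Tm) (σ : ℕ → Tm), t.ev 𝔄 (fun i => Quotient.mk st (σ i)) = Quotient.mk st (t.subst σ) := by
    intro t σ
    induction t with
    | var i => rfl
    | zero => rfl
    | succ t ih => simp only [Tm.ev, Tm.subst, ih]; rfl
    | op o s t ih1 ih2 => simp only [Tm.ev, Tm.subst, ih1, ih2]; rfl
  have hscons : ∀ (t : Tm) (σ : ℕ → Tm), scons (Quotient.mk st t) (fun i => Quotient.mk st (σ i)) =
      fun i => Quotient.mk st (scons t σ i) := by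
    intro t σ
    funext i
    cases i <;> rfl
  have htruth : ∀ (A : Fm) (σ : ℕ → Tm), A.sat 𝔄 (fun i => Quotient.mk st (σ i)) ↔ A.subst σ ∈ S := by
    intro A
    induction A with
    | eq s t =>
      intro σ
      simp only [Fm.sat, hev]
      exact Quotient.eq (r := st)
    | bot =>
      intro σ
      exact ⟨fun h => h.elim, fun h => hbot h⟩
    | bin c A B ihA ihB =>
      intro σ
      have e : (Fm.bin c A B).subst σ = Fm.bin c (A.subst σ) (B.subst σ) := rfl
      rw [e]
      simp only [Fm.sat, ihA, ihB]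
      cases c
      · exact (hand _ _).symm
      · exact (hor _ _).symm
      · exact (himp _ _).symm
    | qu q A ih =>
      intro σ
      cases q
      · rw [allS]
        simp only [Fm.sat, Quant.sem, true_implies]
        constructor
        · intro h t
          rw [← ih, ← hscons]
          exact h _
        · intro h x
          obtain ⟨t, rfl⟩ := Quotient.exists_rep x
          rw [hscons, ih]
          exact h t
      · rw [exS]
        simp only [Fm.sat, Quant.sem, true_and]
        constructor
        · rintro ⟨x, hx⟩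
          obtain ⟨t, rfl⟩ := Quotient.exists_rep x
          rw [hscons, ih] at hx
          exact ⟨t, hx⟩
        · rintro ⟨t, ht⟩
          refine ⟨Quotient.mk st t, ?_⟩
          rw [hscons, ih]
          exact ht
  refine ⟨Quotient st, 𝔄, fun i => Quotient.mk st (Tm.var i), ?_, ?_⟩
  · intro A hA ρ
    have hρ : ρ = fun i => Quotient.mk st ((ρ i).out) := by
      funext i
      exact (Quotient.out_eq (ρ i)).symm
    rw [hρ, htruth]
    exact hax _ (hpax A _ hA)
  · intro A hA
    rw [htruth, hvar]
    exact hA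

end Pool.Agent.KR
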